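import Pool.Agent.Helper95.LN.Stmts

/-! Row EID: Green's formula with a cutoff at infinity. -/

set_option autoImplicit false

open MeasureTheory Filter Topology
open Pool.Agent.Helper95.PW Pool.Agent.Helper95.LN

namespace Pool.Agent.Helper94.LN

theorem eid_norm_le_nr (y : R3) : ‖y‖ ≤ nr y := by
  unfold nr
  rw [pi_norm_le_iff_of_nonneg (Real.sqrt_nonneg _)]
  intro i
  rw [Real.norm_eq_abs]
  refine Real.abs_le_sqrt ?_
  fin_cases i <;> simp <;> nlinarith [sq_nonneg (y 0), sq_nonneg (y 1), sq_nonneg (y 2)]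

theorem eid_hasFDerivAt_tr {g : R3 → ℝ} (hg : Differentiable ℝ g) (x w : R3) :
    HasFDerivAt (fun w => g (w - x)) (fderiv ℝ g (w - x)) w := by
  have h1 : HasFDerivAt (fun w : R3 => w - x) (ContinuousLinearMap.id ℝ R3) w :=
    (hasFDerivAt_id w).sub_const x
  have h2 := HasFDerivAt.comp (g := g) w (hg (w - x)).hasFDerivAt h1
  rw [ContinuousLinearMap.comp_id] at h2
  exact h2

theorem eid_pd_tr {g : R3 → ℝ} (hg : Differentiable ℝ g) (i : Fin 3) (x w : R3) :
    pd i (fun w => g (w - x)) w = pd i g (w - x) := by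
  unfold pd
  rw [(eid_hasFDerivAt_tr hg x w).fderiv]

theorem eid_contDiff_pd {g : R3 → ℝ} (hg : ContDiff ℝ (⊤ : ℕ∞) g) (i : Fin 3) :
    ContDiff ℝ (⊤ : ℕ∞) (pd i g) := by
  unfold pd
  exact (hg.fderiv_right (m := ((⊤ : ℕ∞) : WithTop ℕ∞)) (by exact_mod_cast le_rfl)).clm_apply
    contDiff_const

theorem eid_diff {g : R3 → ℝ} (hg : ContDiff ℝ (⊤ : ℕ∞) g) : Differentiable ℝ g :=
  hg.differentiable (by simp)

theorem eid_pd_mul {f g : R3 → ℝ} (hf : Differentiable ℝ f) (hg : Differentiable ℝ g)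
    (i : Fin 3) (w : R3) : pd i (fun w => f w * g w) w = pd i f w * g w + f w * pd i g w := by
  unfold pd
  rw [fderiv_fun_mul (hf w) (hg w)]
  simp
  ring

/-- Integration by parts with one compactly supported factor. -/
theorem eid_ibp (i : Fin 3) {f g : R3 → ℝ} (hf : ContDiff ℝ (⊤ : ℕ∞) f)
    (hg : ContDiff ℝ (⊤ : ℕ∞) g) (hc : HasCompactSupport g) :
    ∫ x, f x * pd i g x = -∫ x, pd i f x * g x := by
  have hdf := (eid_contDiff_pd hf i).continuous
  have hdg := (eid_contDiff_pd hg i).continuous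
  have hcd : HasCompactSupport (pd i g) := by
    have h := hc.fderiv (𝕜 := ℝ)
    exact h.comp_left (g := fun L : (R3 →L[ℝ] ℝ) => L (Pi.single i 1)) (by simp)
  have i1 : Integrable (fun x => pd i f x * g x) :=
    Continuous.integrable_of_hasCompactSupport (hdf.mul hg.continuous) hc.mul_left
  have i2 : Integrable (fun x => f x * pd i g x) :=
    Continuous.integrable_of_hasCompactSupport (hf.continuous.mul hdg) hcd.mul_left
  have i3 : Integrable (fun x => f x * g x) :=
    Continuous.integrable_of_hasCompactSupport (hf.continuous.mul hg.continuous) hc.mul_left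
  exact integral_mul_fderiv_eq_neg_fderiv_mul_of_integrable (μ := volume)
    (v := (Pi.single i 1 : R3)) i1 i2 i3 (fun x _ => eid_diff hf x) (fun x _ => eid_diff hg x)

/-- The weight at infinity. -/
noncomputable def eidE (w : R3) : ℝ := (1 + ‖w‖)⁻¹

theorem eidE_pos (w : R3) : 0 < eidE w := by unfold eidE; positivity

theorem eidE_cont : Continuous eidE := by
  unfold eidE
  refine Continuous.inv₀ (by fun_prop) fun w => ?_
  positivity

theorem eidE_int : Integrable (fun w => eidE w ^ 4) := by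
  have h := integrable_one_add_norm (E := R3) (μ := volume) (r := 4) (by simp; norm_num)
  refine h.congr (ae_of_all _ fun w => ?_)
  simp only [eidE]
  rw [show (-4 : ℝ) = -((4 : ℕ) : ℝ) by norm_num, Real.rpow_neg (by positivity),
    Real.rpow_natCast, inv_pow]

theorem eidE_tr (x w : R3) : eidE (w - x) ≤ (1 + ‖x‖) * eidE w := by
  unfold eidE
  have h : ‖w‖ ≤ ‖w - x‖ + ‖x‖ := by
    have := norm_add_le (w - x) x
    simpa using this
  have h1 : 0 < 1 + ‖w‖ := by positivity
  have h2 : 0 < 1 + ‖w - x‖ := by positivity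
  rw [← div_eq_mul_inv, le_div_iff₀ h1, inv_mul_le_iff₀ h2]
  nlinarith [norm_nonneg x, norm_nonneg (w - x), mul_nonneg (norm_nonneg x) (norm_nonneg (w - x))]

theorem eid_pd_bd (hB : ST_PHB) {a : ℝ} (ha : 0 < a) (i : Fin 3) (z : R3) :
    |pd i (ph a) z| ≤ (16 / a ^ 2 + 4) * eidE z ^ 2 := by
  obtain ⟨_, h1, h2, _⟩ := hB a ha
  have hE := eidE_pos z
  have hn : 0 < 1 + ‖z‖ := by positivity
  rcases le_total ‖z‖ 1 with h | h
  · refine (h1 i z).trans ?_
    have h3 : 1 / 4 ≤ eidE z ^ 2 := by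
      have : 1 / 2 ≤ eidE z := by
        unfold eidE
        rw [one_div]
        exact inv_anti₀ hn (by linarith)
      nlinarith
    have h4 : 0 < 4 / a ^ 2 := by positivity
    have h5 : 16 / a ^ 2 = 4 * (4 / a ^ 2) := by ring
    rw [h5]
    nlinarith
  · have hz := eid_norm_le_nr z
    have hz0 : 0 < nr z := by linarith
    refine (h2 i z hz0.ne').trans ?_
    have h3 : 1 / nr z ≤ 2 * eidE z := by
      unfold eidE
      rw [← div_eq_mul_inv, div_le_div_iff₀ hz0 hn]
      linarith
    have h4 : 1 / nr z ^ 2 = (1 / nr z) ^ 2 := by rw [div_pow, one_pow]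
    rw [h4]
    have h5 : 0 < 1 / nr z := by positivity
    have h6 : 0 < 16 / a ^ 2 := by positivity
    nlinarith [mul_pos hE hE]

theorem eid_ph_bd (hA : ST_PHA) {a : ℝ} (ha : 0 < a) (z : R3) :
    |ph a z| ≤ (4 / a + 2) * eidE z := by
  obtain ⟨_, _, h1, h2, _⟩ := hA a ha
  have hE := eidE_pos z
  have hn : 0 < 1 + ‖z‖ := by positivity
  rw [abs_of_nonneg (h2 z).1]
  rcases le_total ‖z‖ 1 with h | h
  · refine (h2 z).2.trans ?_
    have h3 : 1 / 2 ≤ eidE z := by
      unfold eidE
      rw [one_div]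
      exact inv_anti₀ hn (by linarith)
    have h4 : 0 < 2 / a := by positivity
    have h5 : 4 / a = 2 * (2 / a) := by ring
    rw [h5]
    nlinarith
  · have hz := eid_norm_le_nr z
    have hz0 : 0 < nr z := by linarith
    refine (h1 z hz0.ne').trans ?_
    have h3 : 1 / nr z ≤ 2 * eidE z := by
      unfold eidE
      rw [← div_eq_mul_inv, div_le_div_iff₀ hz0 hn]
      linarith
    have h6 : 0 < 4 / a := by positivity
    nlinarith

theorem eid_integrable (hA : ST_PHA) (hB : ST_PHB) {a : ℝ} (ha : 0 < a) (x y : R3) (i : Fin 3) :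
    Integrable (fun w => pd i (ph a) (w - x) * pd i (ph a) (w - y)) := by
  have hsm := (hA a ha).1
  have hc := (eid_contDiff_pd hsm i).continuous
  set C : ℝ := 16 / a ^ 2 + 4 with hC
  have hC0 : 0 < C := by positivity
  refine Integrable.mono' (eidE_int.const_mul ((C * (1 + ‖x‖) ^ 2) * (C * (1 + ‖y‖) ^ 2)))
    ((hc.comp (continuous_id.sub continuous_const)).mul
      (hc.comp (continuous_id.sub continuous_const))).aestronglyMeasurable
    (ae_of_all _ fun w => ?_)
  rw [Real.norm_eq_abs, abs_mul]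
  have h1 : ∀ x : R3, |pd i (ph a) (w - x)| ≤ (C * (1 + ‖x‖) ^ 2) * eidE w ^ 2 := fun x => by
    refine (eid_pd_bd hB ha i (w - x)).trans ?_
    have h2 := eidE_tr x w
    have h3 := eidE_pos (w - x)
    have h4 : eidE (w - x) ^ 2 ≤ ((1 + ‖x‖) * eidE w) ^ 2 := by gcongr
    calc C * eidE (w - x) ^ 2 ≤ C * ((1 + ‖x‖) * eidE w) ^ 2 := by gcongr
      _ = (C * (1 + ‖x‖) ^ 2) * eidE w ^ 2 := by ring
  calc |pd i (ph a) (w - x)| * |pd i (ph a) (w - y)|
      ≤ ((C * (1 + ‖x‖) ^ 2) * eidE w ^ 2) * ((C * (1 + ‖y‖) ^ 2) * eidE w ^ 2) := by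
        gcongr
        · exact h1 x
        · exact h1 y
    _ = (C * (1 + ‖x‖) ^ 2) * (C * (1 + ‖y‖) ^ 2) * eidE w ^ 4 := by ring

/-- A smooth cutoff function. -/
noncomputable def eidB : ContDiffBump (0 : R3) := ⟨1, 2, by norm_num, by norm_num⟩

/-- The cutoff functions. -/
noncomputable def chi (n : ℕ) (w : R3) : ℝ := eidB (((n : ℝ) + 1)⁻¹ • w)

theorem chi_smooth (n : ℕ) : ContDiff ℝ (⊤ : ℕ∞) (chi n) := by
  unfold chi
  have h : ContDiff ℝ (⊤ : ℕ∞) (fun w : R3 => ((n : ℝ) + 1)⁻¹ • w) := contDiff_id.const_smul _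
  exact eidB.contDiff.comp h

theorem chi_01 (n : ℕ) (w : R3) : 0 ≤ chi n w ∧ chi n w ≤ 1 :=
  ⟨eidB.nonneg, eidB.le_one⟩

theorem chi_cs (n : ℕ) : HasCompactSupport (chi n) := by
  refine HasCompactSupport.intro (isCompact_closedBall (0 : R3) (2 * ((n : ℝ) + 1)))
    fun w hw => ?_
  rw [mem_closedBall_zero_iff, not_le] at hw
  unfold chi
  refine eidB.zero_of_le_dist ?_
  rw [dist_zero_right, norm_smul, norm_inv, Real.norm_eq_abs,
    abs_of_pos (by positivity : (0 : ℝ) < (n : ℝ) + 1)]
  change (2 : ℝ) ≤ _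
  rw [← div_eq_inv_mul, le_div_iff₀ (by positivity)]
  exact hw.le

theorem chi_one {n : ℕ} {w : R3} (h : ‖w‖ ≤ n + 1) : chi n w = 1 := by
  unfold chi
  refine eidB.one_of_mem_closedBall ?_
  rw [mem_closedBall_zero_iff, norm_smul, norm_inv, Real.norm_eq_abs,
    abs_of_pos (by positivity : (0 : ℝ) < (n : ℝ) + 1)]
  change _ ≤ (1 : ℝ)
  rw [← div_eq_inv_mul, div_le_one (by positivity)]
  exact h

theorem chi_pd : ∃ D : ℝ, 0 < D ∧ ∀ (n : ℕ) (i : Fin 3) (w : R3),
    |pd i (chi n) w| ≤ D / ((n : ℝ) + 1) ∧ |pd i (chi n) w| ≤ D * eidE w := by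
  have hsm : ContDiff ℝ (⊤ : ℕ∞) (fun w => eidB w) := eidB.contDiff
  have hcs : HasCompactSupport (fun w => eidB w) := eidB.hasCompactSupport
  have hfd : HasCompactSupport (fderiv ℝ (fun w => eidB w)) := hcs.fderiv (𝕜 := ℝ)
  have hfc : Continuous (fderiv ℝ (fun w => eidB w)) := hsm.continuous_fderiv (by simp)
  obtain ⟨D, hD⟩ := hfc.bounded_above_of_compact_support hfd
  have hD0 : 0 ≤ D := (norm_nonneg _).trans (hD 0)
  refine ⟨3 * (D + 1), by positivity, fun n i w => ?_⟩
  have hn : (0 : ℝ) < (n : ℝ) + 1 := by positivity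
  have h1 : HasFDerivAt (fun w : R3 => ((n : ℝ) + 1)⁻¹ • w)
      (((n : ℝ) + 1)⁻¹ • ContinuousLinearMap.id ℝ R3) w := by
    exact (hasFDerivAt_id (𝕜 := ℝ) w).const_smul (((n : ℝ) + 1)⁻¹)
  have h2 : HasFDerivAt (chi n) ((fderiv ℝ (fun w => eidB w) (((n : ℝ) + 1)⁻¹ • w)).comp
      (((n : ℝ) + 1)⁻¹ • ContinuousLinearMap.id ℝ R3)) w :=
    HasFDerivAt.comp w (eid_diff hsm _).hasFDerivAt h1
  have h3 : pd i (chi n) w = ((n : ℝ) + 1)⁻¹ *
      (fderiv ℝ (fun w => eidB w) (((n : ℝ) + 1)⁻¹ • w)) (Pi.single i 1) := by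
    unfold pd
    rw [h2.fderiv]
    simp
  have h4 : |(fderiv ℝ (fun w => eidB w) (((n : ℝ) + 1)⁻¹ • w)) (Pi.single i 1)| ≤ D := by
    have := (fderiv ℝ (fun w => eidB w) (((n : ℝ) + 1)⁻¹ • w)).le_opNorm (Pi.single i 1)
    rw [Real.norm_eq_abs] at this
    refine this.trans ?_
    have h5 : ‖(Pi.single i 1 : R3)‖ ≤ 1 := by
      rw [pi_norm_le_iff_of_nonneg zero_le_one]
      intro j
      by_cases hj : j = i
      · subst hj; simp
      · simp [Pi.single_apply, hj]
    calc _ ≤ D * 1 := mul_le_mul (hD _) h5 (norm_nonneg _) hD0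
      _ = D := mul_one D
  have h5 : |pd i (chi n) w| ≤ D / ((n : ℝ) + 1) := by
    rw [h3, abs_mul, abs_of_pos (inv_pos.2 hn), div_eq_inv_mul]
    gcongr
  refine ⟨h5.trans (by gcongr; linarith), ?_⟩
  rcases le_total ‖w‖ (2 * ((n : ℝ) + 1)) with h | h
  · refine h5.trans ?_
    unfold eidE
    rw [← div_eq_mul_inv, div_le_div_iff₀ hn (by positivity)]
    nlinarith
  · have h6 : pd i (chi n) w = 0 ∨ |pd i (chi n) w| ≤ 3 * (D + 1) * eidE w := by
      rcases h.lt_or_eq with h7 | h7
      · left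
        have : chi n =ᶠ[𝓝 w] fun _ => 0 := by
          have hop : IsOpen {w : R3 | 2 * ((n : ℝ) + 1) < ‖w‖} :=
            isOpen_lt continuous_const continuous_norm
          filter_upwards [hop.mem_nhds h7] with z hz
          unfold chi
          refine eidB.zero_of_le_dist ?_
          rw [dist_zero_right, norm_smul, norm_inv, Real.norm_eq_abs, abs_of_pos hn]
          change (2 : ℝ) ≤ _
          rw [← div_eq_inv_mul, le_div_iff₀ hn]
          exact le_of_lt hz
        unfold pd
        rw [this.fderiv_eq]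
        simp
      · right
        refine h5.trans ?_
        unfold eidE
        rw [← div_eq_mul_inv, div_le_div_iff₀ hn (by positivity), ← h7]
        nlinarith
    rcases h6 with h6 | h6
    · rw [h6, abs_zero]
      have := eidE_pos w
      positivity
    · exact h6

theorem EID (hA : ST_PHA) (hB : ST_PHB) (hC : ST_PHC) : ST_EID := by
  intro a x y ha
  have hint := fun i => eid_integrable hA hB ha x y i
  refine ⟨integrable_finsetSum _ fun i _ => hint i, ?_⟩
  have hsm := (hA a ha).1
  have hd := eid_diff hsm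
  obtain ⟨hsme, he0, hez, _, _, _⟩ := hC.2.2.2 a ha
  -- the two potentials
  set u : R3 → ℝ := fun w => ph a (w - y) with hu
  set v : R3 → ℝ := fun w => ph a (w - x) with hv
  have hus : ContDiff ℝ (⊤ : ℕ∞) u := hsm.comp (contDiff_id.sub contDiff_const)
  have hvs : ContDiff ℝ (⊤ : ℕ∞) v := hsm.comp (contDiff_id.sub contDiff_const)
  have hpu : ∀ i w, pd i u w = pd i (ph a) (w - y) := fun i w => eid_pd_tr hd i y w
  have hpv : ∀ i w, pd i v w = pd i (ph a) (w - x) := fun i w => eid_pd_tr hd i x w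
  have hlap : ∀ w, ∑ i, pd i (pd i u) w = -et a (w - y) := fun w => by
    rw [← (hB a ha).1 (w - y)]
    unfold lap
    refine Finset.sum_congr rfl fun i _ => ?_
    have h1 : pd i u = fun w => pd i (ph a) (w - y) := funext fun w => hpu i w
    rw [h1]
    exact eid_pd_tr (eid_diff (eid_contDiff_pd hsm i)) i y w
  -- integrability of the right-hand side
  have hets : Continuous fun w => et a (w - y) :=
    hsme.continuous.comp (continuous_id.sub continuous_const)
  have hetc : HasCompactSupport fun w => et a (w - y) := by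
    refine HasCompactSupport.intro (isCompact_closedBall y a) fun w hw => ?_
    rw [mem_closedBall_iff_norm, not_le] at hw
    exact hez _ (hw.le.trans (eid_norm_le_nr _))
  have hR : Integrable fun w => v w * et a (w - y) :=
    Continuous.integrable_of_hasCompactSupport (hvs.continuous.mul hets) hetc.mul_left
  -- Green's formula with cutoff
  obtain ⟨D, hD, hchi⟩ := chi_pd
  have hgreen : ∀ n : ℕ, (∑ i, ∫ w, chi n w * (pd i u w * pd i v w)) +
      (∑ i, ∫ w, pd i u w * v w * pd i (chi n) w) = ∫ w, chi n w * (v w * et a (w - y)) := by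
    intro n
    have hF : ContDiff ℝ (⊤ : ℕ∞) fun w => v w * chi n w := hvs.mul (chi_smooth n)
    have hFc : HasCompactSupport fun w => v w * chi n w := (chi_cs n).mul_left
    have hcd : ∀ i, HasCompactSupport (pd i (chi n)) := fun i => by
      have h := (chi_cs n).fderiv (𝕜 := ℝ)
      exact h.comp_left (g := fun L : (R3 →L[ℝ] ℝ) => L (Pi.single i 1)) (by simp)
    have hcu : ∀ i, Continuous (pd i u) := fun i => (eid_contDiff_pd hus i).continuous
    have hcv : ∀ i, Continuous (pd i v) := fun i => (eid_contDiff_pd hvs i).continuous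
    have hcc : ∀ i, Continuous (pd i (chi n)) := fun i =>
      (eid_contDiff_pd (chi_smooth n) i).continuous
    have j1 : ∀ i, Integrable fun w => chi n w * (pd i u w * pd i v w) := fun i =>
      Continuous.integrable_of_hasCompactSupport ((chi_smooth n).continuous.mul
        ((hcu i).mul (hcv i))) (chi_cs n).mul_right
    have j2 : ∀ i, Integrable fun w => pd i u w * v w * pd i (chi n) w := fun i =>
      Continuous.integrable_of_hasCompactSupport (((hcu i).mul hvs.continuous).mul (hcc i))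
        (hcd i).mul_left
    have j3 : ∀ i, Integrable fun w => pd i (pd i u) w * (v w * chi n w) := fun i =>
      Continuous.integrable_of_hasCompactSupport
        ((eid_contDiff_pd (eid_contDiff_pd hus i) i).continuous.mul hF.continuous) hFc.mul_left
    have e1 : ∀ i, (∫ w, chi n w * (pd i u w * pd i v w)) +
        ∫ w, pd i u w * v w * pd i (chi n) w = -∫ w, pd i (pd i u) w * (v w * chi n w) := by
      intro i
      rw [← eid_ibp i (eid_contDiff_pd hus i) hF hFc, ← integral_add (j1 i) (j2 i)]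
      refine integral_congr_ae (ae_of_all _ fun w => ?_)
      change _ = pd i u w * pd i (fun w => v w * chi n w) w
      rw [eid_pd_mul (eid_diff hvs) (eid_diff (chi_smooth n))]
      ring
    rw [← Finset.sum_add_distrib, Finset.sum_congr rfl fun i _ => e1 i, Finset.sum_neg_distrib,
      ← integral_finsetSum _ fun i _ => j3 i, ← integral_neg]
    refine integral_congr_ae (ae_of_all _ fun w => ?_)
    change -(∑ i, pd i (pd i u) w * (v w * chi n w)) = _
    rw [← Finset.sum_mul, hlap w]
    ring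
  -- limits
  have hcas : ∀ w : R3, ∀ᶠ n : ℕ in atTop, ‖w‖ < (n : ℝ) := fun w => by
    filter_upwards [eventually_gt_atTop ⌈‖w‖⌉₊] with n hn
    exact lt_of_le_of_lt (Nat.le_ceil _) (by exact_mod_cast hn)
  have hchi1 : ∀ w : R3, ∀ᶠ n : ℕ in atTop, chi n w = 1 := fun w => by
    filter_upwards [hcas w] with n hn
    exact chi_one (by linarith)
  have l1 : ∀ i, Tendsto (fun n : ℕ => ∫ w, chi n w * (pd i u w * pd i v w)) atTop
      (𝓝 (∫ w, pd i u w * pd i v w)) := by
    intro i
    have hi : Integrable fun w => pd i u w * pd i v w := by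
      refine (hint i).congr (ae_of_all _ fun w => ?_)
      simp only [hpu, hpv]
      ring
    refine tendsto_integral_of_dominated_convergence (fun w => |pd i u w * pd i v w|)
      (fun n => ((chi_smooth n).continuous.mul ((eid_contDiff_pd hus i).continuous.mul
        (eid_contDiff_pd hvs i).continuous)).aestronglyMeasurable) hi.abs
      (fun n => ae_of_all _ fun w => ?_) (ae_of_all _ fun w => ?_)
    · rw [Real.norm_eq_abs, abs_mul, abs_of_nonneg (chi_01 n w).1]
      exact mul_le_of_le_one_left (abs_nonneg _) (chi_01 n w).2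
    · refine tendsto_const_nhds.congr' ?_
      filter_upwards [hchi1 w] with n hn
      rw [hn, one_mul]
  have l3 : Tendsto (fun n : ℕ => ∫ w, chi n w * (v w * et a (w - y))) atTop
      (𝓝 (∫ w, v w * et a (w - y))) := by
    refine tendsto_integral_of_dominated_convergence (fun w => |v w * et a (w - y)|)
      (fun n => ((chi_smooth n).continuous.mul
        (hvs.continuous.mul hets)).aestronglyMeasurable) hR.abs
      (fun n => ae_of_all _ fun w => ?_) (ae_of_all _ fun w => ?_)
    · rw [Real.norm_eq_abs, abs_mul, abs_of_nonneg (chi_01 n w).1]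
      exact mul_le_of_le_one_left (abs_nonneg _) (chi_01 n w).2
    · refine tendsto_const_nhds.congr' ?_
      filter_upwards [hchi1 w] with n hn
      rw [hn, one_mul]
  have l2 : ∀ i, Tendsto (fun n : ℕ => ∫ w, pd i u w * v w * pd i (chi n) w) atTop (𝓝 0) := by
    intro i
    have h0 : (0 : ℝ) = ∫ _w : R3, (0 : ℝ) := by simp
    rw [h0]
    set C1 : ℝ := (16 / a ^ 2 + 4) * (1 + ‖y‖) ^ 2 with hC1
    set C2 : ℝ := (4 / a + 2) * (1 + ‖x‖) with hC2
    have hC10 : 0 < C1 := by positivity
    have hC20 : 0 < C2 := by positivity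
    have b1 : ∀ w, |pd i u w| ≤ C1 * eidE w ^ 2 := fun w => by
      rw [hpu]
      refine (eid_pd_bd hB ha i (w - y)).trans ?_
      have h2 := eidE_tr y w
      have h3 := eidE_pos (w - y)
      have h4 : eidE (w - y) ^ 2 ≤ ((1 + ‖y‖) * eidE w) ^ 2 := by gcongr
      calc (16 / a ^ 2 + 4) * eidE (w - y) ^ 2
          ≤ (16 / a ^ 2 + 4) * ((1 + ‖y‖) * eidE w) ^ 2 := by gcongr
        _ = C1 * eidE w ^ 2 := by rw [hC1]; ring
    have b2 : ∀ w, |v w| ≤ C2 * eidE w := fun w => by
      refine (eid_ph_bd hA ha (w - x)).trans ?_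
      have h2 := eidE_tr x w
      calc (4 / a + 2) * eidE (w - x) ≤ (4 / a + 2) * ((1 + ‖x‖) * eidE w) := by gcongr
        _ = C2 * eidE w := by rw [hC2]; ring
    refine tendsto_integral_of_dominated_convergence (fun w => C1 * C2 * D * eidE w ^ 4)
      (fun n => (((eid_contDiff_pd hus i).continuous.mul hvs.continuous).mul
        (eid_contDiff_pd (chi_smooth n) i).continuous).aestronglyMeasurable)
      (eidE_int.const_mul _) (fun n => ae_of_all _ fun w => ?_) (ae_of_all _ fun w => ?_)
    · rw [Real.norm_eq_abs, abs_mul, abs_mul]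
      have hE := eidE_pos w
      calc |pd i u w| * |v w| * |pd i (chi n) w|
          ≤ (C1 * eidE w ^ 2) * (C2 * eidE w) * (D * eidE w) := by
            gcongr
            · exact b1 w
            · exact b2 w
            · exact (hchi n i w).2
        _ = C1 * C2 * D * eidE w ^ 4 := by ring
    · have h1 : Tendsto (fun n : ℕ => |pd i u w * v w| * (D / ((n : ℝ) + 1))) atTop (𝓝 0) := by
        have h2 : Tendsto (fun n : ℕ => D / ((n : ℝ) + 1)) atTop (𝓝 0) := by
          have := (tendsto_one_div_add_atTop_nhds_zero_nat (𝕜 := ℝ)).const_mul D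
          simpa [div_eq_mul_inv] using this
        simpa using h2.const_mul |pd i u w * v w|
      refine squeeze_zero_norm (fun n => ?_) h1
      rw [Real.norm_eq_abs, abs_mul]
      gcongr
      exact (hchi n i w).1
  have hlim : Tendsto (fun n : ℕ => (∑ i, ∫ w, chi n w * (pd i u w * pd i v w)) +
      (∑ i, ∫ w, pd i u w * v w * pd i (chi n) w)) atTop
      (𝓝 ((∑ i, ∫ w, pd i u w * pd i v w) + ∑ _i : Fin 3, (0 : ℝ))) :=
    (tendsto_finsetSum _ fun i _ => l1 i).add (tendsto_finsetSum _ fun i _ => l2 i)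
  have hfin := tendsto_nhds_unique (hlim.congr hgreen) l3
  rw [Finset.sum_const_zero, add_zero] at hfin
  rw [integral_finsetSum _ fun i _ => hint i, ← hfin]
  refine Finset.sum_congr rfl fun i _ => integral_congr_ae (ae_of_all _ fun w => ?_)
  simp only [hpu, hpv]
  ring

end Pool.Agent.Helper94.LN
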